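import Pool.Agent.K1H17.TP.Gn

/-! Abundance for abelian covers of products of varieties which are branched over the preimages of
reduced divisors on the factors, with arbitrary singularities.

New: the Kuenneth formula for sections of `m (K + D) + A` on products of arbitrary varieties, the
monomial places of products and the bases adapted to them, and the two estimates (`Pool.Agent.K1H17.TP`).
Library theorems used as tools: `cov_num`, `cov_neg` (numerical dimension of quotients) and
`index_unique` of `R885.N` (copied to `TP.Cv`), `R885.pair_top`, `TH122.AB` (places of polynomials,
Galois groups of radical extensions), `W619`, `Y174` (pairs), `W636` (bases of forms),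
`W300.PG.TRGE`. -/

set_option autoImplicit false
set_option linter.overlappingInstances false

open FF IntermediateField Pool.Agent.K1H17.IS Pool.Agent.K1H17.TP

namespace Pool.Agent.Results.MP_5ff3c6_ag.AbelianCoversOfProducts

open Classical in
/-- Let `X` be an abelian cover of the product of projective varieties `B i` (`i < r`) of dimensions
`a i`, with function fields `M i`, given by the equations `z j ^ m j = ∏ i, τ i ^ A j i` (`j < s`),
where `div (τ i) = D i - N i * H i` on `B i`, for a reduced divisor `D i` and a divisor `H i`
generated by finitely many functions, and `m j ∣ A j i * N i` (`IsAbelianCover`). So `X` is branched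
only over the preimages of the `D i`; there is no condition on its singularities.

A vector `v ≠ 0` of natural numbers is admissible (`Adm`) if `m j` divides `∑ i, A j i * v i` for all
`j`; its weight (`wt`) is `∑ i, α i * v i`. An index `i` is critical (`Crit`) if `v i ≠ 0` for some
admissible `v` of weight `1`. Assume that for each `i` one of the following holds:

* (`FactorAbundant`, where `K + D i` stands for the canonical divisor plus the reduced preimage of
  `D i`, on all models of `B i`): the sections of `m (K + D i) + A` vanish along `D i` at most to the
  order `m α i + c`, those which vanish to the order `m α i - c` form spaces of dimension at most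
  `C m ^ h i`, and `ν (K + D i) ≤ e i`; moreover `κ (K + D i - α i D i) ≥ h i` if `i` is critical, and
  otherwise `κ (K + D i - x D i) ≥ e i` for all rational numbers `0 ≤ x < α i`;
* (`FactorProportional`) `(B i, D i)` is log canonical, `D i` is big, `K + D i` is `ℚ`-linearly
  equivalent to `α i D i`, and `B i` has canonical singularities outside `D i`; `h i = 0`, `e i = a i`;
* (`FactorProjective`) `B i` is the projective space, `D i` the closure of the hypersurface `f i = 0`,
  where `f i` is a squarefree polynomial of degree `d i ≥ 1`, `(B i, D i)` is log canonical, and
  `α i = 1 - (a i + 1) / d i`; `h i = 0`, `e i = a i`.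

Then (`Dichotomy`) either some admissible `v` has weight less than `1`, and `m K + A` has no nonzero
sections on the projective manifolds birational to `X` for large `m`, for every divisor `A` (so
`κ = ν = -∞`); or all admissible vectors have weight at least `1`, and the Kodaira dimension and the
numerical dimension of these manifolds are both equal to the sum of the `h i` for the critical `i`
and the `e i` for the other `i`. In particular the abundance conjecture `κ = ν` holds for them. -/
theorem result {L : Type} [Field L] [Algebra ℂ L] {r s : ℕ} {M : Fin r → IntermediateField ℂ L}
    {a : Fin r → ℕ} {D : ∀ i, DivData (M i)} {A : Fin s → Fin r → ℤ} {m : Fin s → ℕ}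
    {z : Fin s → L} (hX : IsAbelianCover M a D A m z) (α : Fin r → ℚ) (h e : Fin r → ℕ)
    (hB : ∀ i, FactorAbundant ℂ (M i) (a i) (D i) (α i) (h i) (e i) (Crit A m α i) ∨
      FactorProportional ℂ (M i) (a i) (D i) (α i) (h i) (e i) ∨
      FactorProjective ℂ (M i) (a i) (D i) (α i) (h i) (e i)) :
    Dichotomy ℂ L (∑ i, a i) A m α (∑ i, if Crit A m α i then h i else e i) ∧
      Abundance ℂ L (∑ i, a i) := by
  have h1 := hX.main hB
  refine ⟨h1, ?_⟩
  rcases h1 with ⟨-, h2⟩ | ⟨-, h2⟩
  · exact Or.inl h2
  · exact Or.inr ⟨_, h2.1, h2.2.2⟩

end Pool.Agent.Results.MP_5ff3c6_ag.AbelianCoversOfProducts
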