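import Pool.Agent.K1H17.LW.Fin

/-! Abundance for abelian covers of `W × ℙ¹ × ... × ℙ¹`, where `W` is a variety of positive dimension,
with at most two types of branch points over each line, with arbitrary branching over `W` and
arbitrary singularities.

New: the expansion of forms on `W × (ℙ¹) ^ r` in two groups of variables with the bound of the
coefficients by the boundary `R` on `W`, and the lower bound for covers with arbitrary branching over
`W` (`Pool.Agent.K1H17.LW`, `K1H24.LW`, written for this result). The polytope and the theory for
`W = point` (`K1H17.LP`) were written for the hand-in `LineProductCovers`. Library theorems used as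
tools: `cov_num`, `cov_neg` of `R885.N` (copied to `TP.Cv`), the filtration of forms on products
(`TP.Ad`, `TP.Ph`), `W619`, `Y174` (pairs), `W636` (bases of forms), `W300.PG.TRGE`. -/

set_option autoImplicit false
set_option linter.overlappingInstances false

open FF Polynomial Pool.Agent.W619.TW Pool.Agent.W619.Y Pool.Agent.K1H17.IS Pool.Agent.K1H17.TP
  Pool.Agent.K1H17.LP Pool.Agent.K1H17.LW

namespace Pool.Agent.Results.MP_5ff3c6_ag.FibredLineCovers

/-- Let `W` be a projective variety of dimension `w ≥ 1` with function field `M`, and let `X` be an
abelian cover of the product of `W` and of `r` projective lines with the coordinates `x i`, given by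
the equations `z j ^ m j = τ j * ∏ i, (f i 0 (x i)) ^ A j i 0 * (f i 1 (x i)) ^ A j i 1` (`j < s`),
where the `τ j` are arbitrary nonzero rational functions on `W`, for each `i` the nonconstant
polynomials `f i 0`, `f i 1` have only simple zeros and no common zeros, and `m j` divides
`A j i 0 * deg (f i 0) + A j i 1 * deg (f i 1)` (`IsFibreLineCover`). So there are at most two types
of branch divisors over each line, and no condition on the branching over `W` and on the
singularities of `X`. Let `R` be the set of all prime divisors `q` over `W` for which some
`ord_q (τ j)` is not divisible by `m j` (`Branch`).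

Assume that `κ (W) ≥ e` and `ν (K_W + R) ≤ e`, on all models (`KodTr`, `NumLe`); the second
condition is not needed if `e = w`. (For instance: `W` is of general type; or `κ (W) = ν (W) = e`
and the divisors of the `τ j` are divisible by `m j`.)

Call a family `v ≠ 0` of natural numbers `v i c` admissible (`Adm`) if for each `i` one of `v i 0`,
`v i 1` is `0`, and `m j` divides `∑ i, ∑ c, A j i c * v i c` for all `j`. Let `P` (`Polytope`) be the
set of the rational points `y` with `∑ c, deg (f i c) * y i c = ∑ c, deg (f i c) - 2` for all `i`
and `∑ i, ∑ c, v i c * y i c ≥ 1` for all admissible `v`.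

Then either `P` is empty, and `m K + A` has no nonzero sections on the projective manifolds
birational to `X` for large `m`, for every divisor `A` (so `κ = ν = -∞`); or `P` is not empty, and
the Kodaira dimension and the numerical dimension of these manifolds are both equal to `e` plus the
dimension of `P`. In particular the abundance conjecture `κ = ν` holds for them. -/
theorem result {L : Type} [Field L] [Algebra ℂ L] {M : IntermediateField ℂ L} {w e : ℕ}
    (_hw : 1 ≤ w) (hM : Algebra.trdeg ℂ M = w) (hess : Algebra.EssFiniteType ℂ M)
    {r s : ℕ} {x : Fin r → L} {f : Fin r → Fin 2 → ℂ[X]} {A : Fin s → Fin r → Fin 2 → ℤ}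
    {m : Fin s → ℕ} {τ z : Fin s → L} (hX : IsFibreLineCover M x f A m τ z)
    (hκ : KodTr ℂ M w e) (hν : e = w ∨ NumLe ℂ M w (Branch M m τ) e) :
    ((Polytope A m (fun i c => (f i c).natDegree) = ∅ ∧ NumNeg ℂ L (w + r) (fun _ => False)) ∨
      ((Polytope A m (fun i c => (f i c).natDegree)).Nonempty ∧
        KodNum ℂ L (w + r) (e + affDim (Polytope A m fun i c => (f i c).natDegree)))) ∧
      Abundance ℂ L (w + r) := by
  have h1 := hX.abundance hM hess (Or.inr ⟨hκ, hν⟩)
  refine ⟨h1, ?_⟩
  rcases h1 with ⟨-, h2⟩ | ⟨-, h2⟩
  · exact Or.inl h2
  · exact Or.inr ⟨_, h2.1, h2.2.2⟩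

end Pool.Agent.Results.MP_5ff3c6_ag.FibredLineCovers
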