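import Pool.Agent.K1H17.LP.Fin

/-! Abundance for abelian covers of products of projective lines with at most two types of branch
points over each factor, with arbitrary singularities.

New: the polytope which computes `κ` and `ν`, the bases of spaces of forms on products of lines
adapted to two families of places, the bound of the number of sections of `m K + A` by lattice
points, and the Laurent monomials in the polynomials of the branch points (`Pool.Agent.K1H17.LP`,
`K1H24.LP`, `K1H33.LP`, `K1H36.LP`, `K1H60.LP`, `K1H65.LP`, `K1H69.LP`, written for this result).
Library theorems used as tools: `cov_num`, `cov_neg`, `index_unique` of `R885.N` (copied to `TP.Cv`),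
the filtration of forms on products (`TP.Ad`, `TP.Ph`), `W619`, `Y174` (pairs), `W636` (bases of
forms), `W300.PG.TRGE` and the construction of pluricanonical forms on covers `W619.Y`. -/

set_option autoImplicit false
set_option linter.overlappingInstances false

open FF Polynomial Pool.Agent.W619.TW Pool.Agent.K1H17.IS Pool.Agent.K1H17.TP Pool.Agent.K1H17.LP

namespace Pool.Agent.Results.MP_5ff3c6_ag.LineProductCovers

/-- Let `X` be an abelian cover of the product `(ℙ¹)ʳ` of `r` projective lines with the coordinates
`x i`, given by the equations `z j ^ m j = ∏ i, (f i 0 (x i)) ^ A j i 0 * (f i 1 (x i)) ^ A j i 1`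
(`j < s`), where for each `i` the nonconstant polynomials `f i 0`, `f i 1` have only simple zeros and
no common zeros, and `m j` divides `A j i 0 * deg (f i 0) + A j i 1 * deg (f i 1)` (`IsLineCover`);
so there are at most two types of branch divisors over each factor, and no condition on the
singularities of `X`. For example, `X` may be the quotient of a product `C 0 × ... × C (r - 1)` of
cyclic triple covers of the line by any subgroup of `(ℤ / 3) ^ r`.

Call a family `v ≠ 0` of natural numbers `v i c` admissible (`Adm`) if for each `i` one of `v i 0`,
`v i 1` is `0`, and `m j` divides `∑ i, ∑ c, A j i c * v i c` for all `j`. Let `P` (`Polytope`) be the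
set of the rational points `y` with `∑ c, deg (f i c) * y i c = ∑ c, deg (f i c) - 2` for all `i`
and `∑ i, ∑ c, v i c * y i c ≥ 1` for all admissible `v`.

Then either `P` is empty, and `m K + A` has no nonzero sections on the projective manifolds
birational to `X` for large `m`, for every divisor `A` (so `κ = ν = -∞`); or `P` is not empty, and
the Kodaira dimension and the numerical dimension of these manifolds are both equal to the dimension
of `P`. In particular the abundance conjecture `κ = ν` holds for them. -/
theorem result {L : Type} [Field L] [Algebra ℂ L] {r s : ℕ} {x : Fin r → L}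
    {f : Fin r → Fin 2 → ℂ[X]} {A : Fin s → Fin r → Fin 2 → ℤ} {m : Fin s → ℕ} {z : Fin s → L}
    (hX : IsLineCover x f A m z) :
    ((Polytope A m (fun i c => (f i c).natDegree) = ∅ ∧ NumNeg ℂ L r (fun _ => False)) ∨
      ((Polytope A m (fun i c => (f i c).natDegree)).Nonempty ∧
        KodNum ℂ L r (affDim (Polytope A m fun i c => (f i c).natDegree)))) ∧
      Abundance ℂ L r := by
  have h1 := hX.main
  refine ⟨h1, ?_⟩
  rcases h1 with ⟨-, h2⟩ | ⟨-, h2⟩
  · exact Or.inl h2
  · exact Or.inr ⟨_, h2.1, h2.2.2⟩

end Pool.Agent.Results.MP_5ff3c6_ag.LineProductCovers
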