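import Pool.Agent.K1H6.PQ.Fin

/-! Abundance for quotients of products of varieties by finite groups which permute the factors. -/

set_option autoImplicit false
set_option linter.overlappingInstances false

open FF IntermediateField Pool.Agent.W619.PQ Pool.Agent.W619.PL Pool.Agent.W619.TW
  Pool.Agent.W619.Y Pool.Agent.K1H17.IS Pool.Agent.K1H6.PQ

namespace Pool.Agent.Results.MP_5ff3c6_ag.PermutedQuotients

/-- Let `W i` (`i < r`) be projective varieties of dimensions `a i` over the complex numbers, with
function fields `M i`, let `L` be the function field of their product, `G` a finite group which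
acts on the product and permutes the factors (`IsPermuted`: `g` in `G` permutes them as `σ g`), and
`X` a projective manifold birational to the quotient of the product by `G`. Let `stab σ i` be the
stabilizer in `G` of the factor `i`, and let `s i g` be real numbers (weights) such that

* (`AgeCond`) for every `g ≠ 1` in `G`: `g` moves a factor of dimension at least `2`, or
  `age g 0 ≥ 1`, or `age g s > 1`, where `age g s` is the sum over the cycles `c` of `σ g`, say of
  length `l` on factors of dimension `a`, of `a (l - 1) / 2`, plus the mean over `i` in `c` of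
  `max (1 / t) (s i (g ^ l))` if `g ^ l` acts on the factors of the cycle with order `t ≥ 2`; and
* for each `i`, the weights `s i g`, `g` in `stab σ i`, are not positive, or (`OrbEffective`) the
  Kodaira dimension of `K + ∑ δ v v` on `W i / stab σ i` is not `-∞`, for some coefficients
  `δ v ≤ 1 - 1 / e v` with `δ v ≤ 1 - s i g` for all `g` in `stab σ i` which are nontrivial on `W i`
  and fix pointwise a prime divisor over `v` (`e v` is the ramification index).

Then: if `K_X` is pseudo-effective, so are all `K_{W i}`; `κ (X) ≥ ∑ κ (W i)` and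
`ν (X) ≤ ∑ ν (W i)`; and if the abundance conjecture `κ = ν` holds for all `W i`, it holds for `X`. -/
theorem result {L : Type} [Field L] [Algebra ℂ L] {r : ℕ} (M : Fin r → IntermediateField ℂ L)
    (a : Fin r → ℕ) (G : Subgroup (L ≃ₐ[ℂ] L)) [Finite G] (σ : G →* Equiv.Perm (Fin r))
    (h : IsPermuted M a G σ) (s : Fin r → (L ≃ₐ[ℂ] L) → ℝ)
    (hs : ∀ i, (∀ g ∈ stab σ i, s i g ≤ 0) ∨ OrbEffective (M i) (stab σ i) (a i) (s i))
    (hg : AgeCond M a G σ s) :
    (IsPsef ℂ (fixedField G) (∑ i, a i) (fun _ => False) →
      ∀ i, IsPsef ℂ (M i) (a i) (fun _ => False)) ∧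
    (∀ A : Fin r → ℕ, (∀ i, KodTr ℂ (M i) (a i) (A i)) →
      KodTr ℂ (fixedField G) (∑ i, a i) (∑ i, A i) ∧
      KodGe ℂ (fixedField G) (∑ i, a i) (fun _ => False) (∑ i, A i)) ∧
    (∀ A : Fin r → ℕ, (∀ i, NumLe ℂ (M i) (a i) (fun _ => False) (A i)) →
      NumLe ℂ (fixedField G) (∑ i, a i) (fun _ => False) (∑ i, A i)) ∧
    ((∀ i, Abundance ℂ (M i) (a i)) → Abundance ℂ (fixedField G) (∑ i, a i)) :=
  ⟨h.num.1, fun _ hA => h.kod s hs hg hA, h.num.2.2, fun hA => h.abundance s hs hg hA⟩

end Pool.Agent.Results.MP_5ff3c6_ag.PermutedQuotients
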